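import Pool.Agent.TH646.LV.Level
import Pool.Agent.TH823.Fam.Fam2
import Pool.Agent.TH872.GQ.Dual

/-!
Families of residues of nearly minimal additive energy: divisor-bounded weights, heights depending on the
moduli, the residues nearby, absolute values over the moduli.
-/

set_option autoImplicit false

namespace Pool.Agent.K9h59.FM

open Finset
open Pool.Agent.H373R2.T7 (energy)
open Pool.Agent.W93.LV
open Pool.Agent.TH212.EH (W WW)

/-- the energy is invariant under shifts -/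
lemma energy_shift (p x : ℕ) (s : ℕ → ℤ) (t : ℤ) : energy p x (fun m => s m + t) = energy p x s := by
  unfold energy
  congr 1
  apply filter_congr
  intro q _
  rw [sum_add_distrib, sum_add_distrib]
  simp only [sum_const, add_left_inj]

/-- powers of the logarithm are small -/
lemma room (m : ℕ) (L : ℝ) (h2 : 2 ≤ L) (hm : 2 * (m : ℝ) ≤ Real.log L) :
    (2 * L) ^ m ≤ Real.exp (Real.log L ^ 2) := by
  have hL0 : 0 < L := by linarith
  have hlL : 0 ≤ Real.log L := Real.log_nonneg (by linarith)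
  calc (2 * L) ^ m ≤ (L ^ 2) ^ m := by
        apply pow_le_pow_left₀ (by positivity)
        nlinarith
    _ = Real.exp (2 * m * Real.log L) := by
        rw [← pow_mul, ← Real.exp_log (pow_pos hL0 (2 * m)), Real.log_pow]
        push_cast
        ring_nf
    _ ≤ Real.exp (Real.log L ^ 2) := by
        apply Real.exp_le_exp.2
        nlinarith

/-- the eventual inequalities -/
lemma ev_log (c : ℝ) : ∃ N₀ : ℕ, ∀ N : ℕ, N₀ ≤ N → c ≤ Real.log N := by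
  have h := (Real.tendsto_log_atTop.comp (tendsto_natCast_atTop_atTop (R := ℝ))).eventually_ge_atTop c
  obtain ⟨N₀, h0⟩ := Filter.eventually_atTop.1 h
  exact ⟨N₀, fun N hN => h0 N hN⟩

/-- powers of the logarithm -/
lemma ev_pow (V : ℕ) : ∃ N₀ : ℕ, ∀ N : ℕ, N₀ ≤ N → Real.log N ^ V ≤ N := by
  have h := (Real.isLittleO_pow_log_id_atTop (n := V)).bound one_pos
  have h' := (tendsto_natCast_atTop_atTop (R := ℝ)).eventually h
  obtain ⟨N₀, h0⟩ := Filter.eventually_atTop.1 h'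
  refine ⟨N₀, fun N hN => ?_⟩
  have h1 := h0 N hN
  simp only [id, one_mul, Real.norm_natCast] at h1
  exact (Real.le_norm_self _).trans h1

open Classical in
/-- the hypothesis for bounded weights -/
lemma hyp_fam (p B C T₁ U₁ : ℕ) : ∃ K N₀ : ℕ, ∀ N : ℕ, N₀ ≤ N →
    ∀ (x : ℕ) (s : ℕ → ℤ), (∀ m ∈ Icc 1 x, |s m| ≤ B * N) →
    (energy p x s : ℝ) * N ≤ Real.log N ^ C * (x : ℝ) ^ (2 * p) → ∀ Q : ℕ,
    (Q : ℝ) ≤ N * Real.exp (-(K * Real.log (Real.log N) ^ 2)) →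
    Pool.Agent.TH872.GQ.Hyp ⌈Real.log N⌉₊ ((B + 1) * N) (B * N) Q T₁ U₁
      ((Icc 1 x).filter (fun m => 0 < s m)) (fun _ => 1 / (x : ℝ)) (fun m => (s m).toNat) := by
  obtain ⟨K, N₁, h1⟩ := Pool.Agent.TH646.LV.lv_fam p B C (T₁ + 1) (U₁ + 1)
  obtain ⟨N₂, h2⟩ := ev_log (2 ^ T₁ + 2 ^ U₁ + 1)
  refine ⟨K, N₁ + N₂, fun N hN x s hs hE Q hQ lam hlam E hdec hEW => ?_⟩
  have hL := h2 N (by omega)
  have q1 : (0 : ℝ) < 2 ^ T₁ := by positivity
  have q2 : (0 : ℝ) < 2 ^ U₁ := by positivity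
  obtain ⟨L, hLd⟩ : ∃ L : ℝ, L = Real.log N := ⟨_, rfl⟩
  rw [← hLd] at hL
  have hL1 : 1 ≤ L := by linarith
  have hL0 : 0 < L := by linarith
  obtain ⟨k, hk⟩ : ∃ k : ℕ, k = ⌈L⌉₊ := ⟨_, rfl⟩
  rw [← hLd, ← hk] at hEW
  rw [← hLd, ← hk] at hlam ⊢
  have hk1 : L ≤ k := by rw [hk]; exact Nat.le_ceil _
  have hk2 : (k : ℝ) ≤ 2 * L := by
    have : (k : ℝ) < L + 1 := by rw [hk]; exact Nat.ceil_lt_add_one hL0.le
    linarith
  have hk0 : (0 : ℝ) < k := by linarith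
  have hpow : ∀ V : ℕ, (2 : ℝ) ^ V ≤ L → (k : ℝ) ^ V ≤ L ^ (V + 1) := by
    intro V hV
    calc (k : ℝ) ^ V ≤ (2 * L) ^ V := pow_le_pow_left₀ hk0.le hk2 V
      _ = 2 ^ V * L ^ V := mul_pow _ _ _
      _ ≤ L * L ^ V := by gcongr
      _ = L ^ (V + 1) := by ring
  have hT := hpow T₁ (by linarith)
  have hU := hpow U₁ (by linarith)
  have h3 := h1 N (by omega) x s hs hE lam (fun q => by rw [← hLd]; exact (hlam q).trans hT) Q hQ
    (((Icc 1 x).filter (fun m => 0 < s m)).filter E) ((filter_subset _ _).trans (filter_subset _ _)) ?_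
  · rw [← sum_filter, sum_const, nsmul_eq_mul, mul_one_div]
    rcases Nat.eq_zero_or_pos x with h0 | h0
    · subst h0
      simp only [Nat.cast_zero, div_zero]
      positivity
    · have hx0 : (0 : ℝ) < x := by exact_mod_cast h0
      rw [div_le_iff₀ hx0]
      refine le_trans (le_trans (le_of_eq ?_) h3) ?_
      · congr!
      · rw [← hLd, one_div, inv_mul_eq_div]
        exact div_le_div_of_nonneg_left hx0.le (by positivity) hU
  · intro m hm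
    rw [mem_filter] at hm
    obtain ⟨hm1, hm2⟩ := hm
    obtain ⟨y, hy, hlt⟩ := hEW m hm1 hm2
    refine ⟨(mem_filter.1 hm1).2, y, hy, lt_of_le_of_lt ?_ hlt⟩
    rw [← hLd]
    have hNX : (N : ℝ) ≤ (((B + 1) * N : ℕ) : ℝ) := by
      exact_mod_cast Nat.le_mul_of_pos_left _ (Nat.succ_pos B)
    calc (N : ℝ) / L ^ (U₁ + 1) ≤ N / (k : ℝ) ^ U₁ :=
          div_le_div_of_nonneg_left (Nat.cast_nonneg _) (by positivity) hU
      _ ≤ _ := div_le_div_of_nonneg_right hNX (by positivity)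

/-- the sizes -/
lemma sizes (B m : ℕ) : ∃ N₀ : ℕ, ∀ N : ℕ, N₀ ≤ N → ∀ K : ℕ, 1 ≤ K → ∀ Q : ℕ,
    (Q : ℝ) ≤ N * Real.exp (-(K * Real.log (Real.log N) ^ 2)) →
    1 ≤ Real.log (((B + 1) * N : ℕ) : ℝ) ∧
    Real.log (((B + 1) * N : ℕ) : ℝ) ≤ (⌈Real.log N⌉₊ : ℝ) ^ 2 ∧
    (Q : ℝ) * (⌈Real.log N⌉₊ : ℝ) ^ m ≤ (((B + 1) * N : ℕ) : ℝ) := by
  obtain ⟨N₁, h1⟩ := ev_log (max 2 (max (Real.exp (2 * m)) (1 + Real.log (B + 1))))
  refine ⟨N₁ + 1, fun N hN K hK Q hQ => ?_⟩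
  have hL := h1 N (by omega)
  obtain ⟨L, hLd⟩ : ∃ L : ℝ, L = Real.log N := ⟨_, rfl⟩
  rw [← hLd] at hL hQ ⊢
  have hL2 : 2 ≤ L := (le_max_left _ _).trans hL
  have hLm : Real.exp (2 * m) ≤ L := (le_max_left _ _).trans ((le_max_right _ _).trans hL)
  have hLB : 1 + Real.log (B + 1) ≤ L := (le_max_right _ _).trans ((le_max_right _ _).trans hL)
  have hL0 : 0 < L := by linarith
  have hN0 : (0 : ℝ) < N := by exact_mod_cast (by omega : 0 < N)
  have hB0 : (0 : ℝ) < (B : ℝ) + 1 := by positivity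
  obtain ⟨k, hk⟩ : ∃ k : ℕ, k = ⌈L⌉₊ := ⟨_, rfl⟩
  rw [← hk]
  have hk1 : L ≤ k := by rw [hk]; exact Nat.le_ceil _
  have hk2 : (k : ℝ) ≤ 2 * L := by
    have : (k : ℝ) < L + 1 := by rw [hk]; exact Nat.ceil_lt_add_one hL0.le
    linarith
  have hk0 : (0 : ℝ) < k := by linarith
  have hB1 : 0 ≤ Real.log ((B : ℝ) + 1) := Real.log_nonneg (by
    have : (0 : ℝ) ≤ B := Nat.cast_nonneg _
    linarith)
  have e1 : Real.log (((B + 1) * N : ℕ) : ℝ) = Real.log (B + 1) + L := by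
    push_cast
    rw [Real.log_mul hB0.ne' hN0.ne', hLd]
  refine ⟨?_, ?_, ?_⟩
  · rw [e1]
    linarith
  · rw [e1]
    nlinarith
  · have hlogm : 2 * (m : ℝ) ≤ Real.log L := by
      rw [Real.le_log_iff_exp_le hL0]
      exact hLm
    have h3 := room m L hL2 hlogm
    have h4 : (k : ℝ) ^ m ≤ Real.exp (Real.log L ^ 2) := (pow_le_pow_left₀ hk0.le hk2 m).trans h3
    have hK1 : (1 : ℝ) ≤ K := by exact_mod_cast hK
    have h5 : Real.exp (-(K * Real.log L ^ 2)) ≤ Real.exp (-(Real.log L ^ 2)) := by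
      apply Real.exp_le_exp.2
      nlinarith [sq_nonneg (Real.log L)]
    calc (Q : ℝ) * (k : ℝ) ^ m ≤ (N * Real.exp (-(Real.log L ^ 2))) * Real.exp (Real.log L ^ 2) := by
          apply mul_le_mul (hQ.trans (by gcongr)) h4 (by positivity) (by positivity)
      _ = N := by
          rw [mul_assoc, ← Real.exp_add, neg_add_cancel, Real.exp_zero, mul_one]
      _ ≤ _ := by
          exact_mod_cast Nat.le_mul_of_pos_left _ (Nat.succ_pos B)

/-- the weights -/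
lemma weight_le {T : ℕ} {L k : ℝ} (hL0 : 0 ≤ L) (hk : L ≤ k) {lam : ℕ → ℝ}
    (h : ∀ q, |lam q| ≤ ((q.divisors.card : ℝ) * L) ^ T) (q : ℕ) :
    |lam q| ≤ k ^ T * (q.divisors.card : ℝ) ^ T := by
  refine (h q).trans ?_
  rw [mul_pow, mul_comm]
  gcongr

/-- the thresholds -/
lemma thr {B N U : ℕ} {L k : ℝ} (hL1 : 1 ≤ L) (hk : L ≤ k) (hB : (B : ℝ) + 1 ≤ k) (j : ℕ) (hj : 1 ≤ j) :
    (((B + 1) * N : ℕ) : ℝ) / k ^ (U + j) ≤ N / L ^ U := by
  have hk0 : 0 < k := by linarith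
  have hL0 : 0 < L := by linarith
  have hk1 : 1 ≤ k := by linarith
  have h1 : k ≤ k ^ j := by
    calc k = k ^ 1 := (pow_one _).symm
      _ ≤ k ^ j := pow_le_pow_right₀ hk1 hj
  have h2 : L ^ U ≤ k ^ U := pow_le_pow_left₀ hL0.le hk U
  rw [div_le_div_iff₀ (by positivity) (by positivity)]
  push_cast
  calc ((B : ℝ) + 1) * N * L ^ U ≤ k ^ j * N * k ^ U := by
        have h3 : (B : ℝ) + 1 ≤ k ^ j := hB.trans h1
        gcongr
    _ = N * k ^ (U + j) := by rw [pow_add]; ring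

open Classical in
/-- divisor-bounded weights -/
theorem base_heavy (p B C T U : ℕ) : ∃ K N₀ : ℕ, ∀ N : ℕ, N₀ ≤ N →
    ∀ (x : ℕ) (s : ℕ → ℤ), (∀ m ∈ Icc 1 x, |s m| ≤ B * N) →
    (energy p x s : ℝ) * N ≤ Real.log N ^ C * (x : ℝ) ^ (2 * p) → ∀ Q : ℕ,
    (Q : ℝ) ≤ N * Real.exp (-(K * Real.log (Real.log N) ^ 2)) →
    ∀ lam : ℕ → ℝ, (∀ q, |lam q| ≤ ((q.divisors.card : ℝ) * Real.log N) ^ T) →
    ∀ y : ℕ → ℕ, (∀ q, y q ≤ B * N) →
    ∀ S : Finset ℕ, S ⊆ Icc 1 x →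
    (∀ m ∈ S, 0 < s m ∧ ((∃ z ≤ B * N, N / Real.log N ^ U < |W lam Q z (s m).toNat|) ∨
      N / Real.log N ^ U < |WW lam y Q (s m).toNat|)) →
    (S.card : ℝ) ≤ x / Real.log N ^ U := by
  obtain ⟨T₁, U₁, m₁, k₁, hh⟩ := Pool.Agent.TH872.GQ.heavy T (U + 2)
  obtain ⟨K, N₁, h1⟩ := hyp_fam p B C T₁ U₁
  obtain ⟨N₂, h2⟩ := sizes B m₁
  obtain ⟨N₃, h3⟩ := ev_log (k₁ + B + 2)
  refine ⟨K + 1, N₁ + N₂ + N₃, fun N hN x s hs hE Q hQ lam hlam y hy S hSx hS => ?_⟩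
  have hQ' : (Q : ℝ) ≤ N * Real.exp (-(K * Real.log (Real.log N) ^ 2)) := by
    refine hQ.trans ?_
    apply mul_le_mul_of_nonneg_left _ (Nat.cast_nonneg _)
    apply Real.exp_le_exp.2
    push_cast
    nlinarith [sq_nonneg (Real.log (Real.log N))]
  obtain ⟨s1, s2, s3⟩ := h2 N (by omega) (K + 1) (by omega) Q (by exact_mod_cast hQ)
  have hyp := h1 N (by omega) x s hs hE Q hQ'
  have hL := h3 N (by omega)
  obtain ⟨L, hLd⟩ : ∃ L : ℝ, L = Real.log N := ⟨_, rfl⟩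
  rw [← hLd] at hL s2 s3 hyp hlam hS ⊢
  have hk₁0 : (0 : ℝ) ≤ k₁ := Nat.cast_nonneg _
  have hB0 : (0 : ℝ) ≤ B := Nat.cast_nonneg _
  have hL1 : 1 ≤ L := by linarith
  have hL0 : 0 < L := by linarith
  obtain ⟨k, hk⟩ : ∃ k : ℕ, k = ⌈L⌉₊ := ⟨_, rfl⟩
  rw [← hk] at s2 s3 hyp
  have hk1 : L ≤ k := by rw [hk]; exact Nat.le_ceil _
  have hkk : k₁ ≤ k := by
    have : (k₁ : ℝ) ≤ k := by linarith
    exact_mod_cast this
  have hk0 : (0 : ℝ) < k := by linarith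
  obtain ⟨r1, r2⟩ := hh k hkk ((B + 1) * N) (B * N) Q (Nat.mul_le_mul_right _ (by omega)) s1 s2 s3 ℕ _ _
    (fun _ _ => by positivity) _ hyp lam (weight_le hL0.le hk1 hlam)
  obtain ⟨Ω, hΩ⟩ : ∃ Ω : Finset ℕ, Ω = (Icc 1 x).filter (fun m => 0 < s m) := ⟨_, rfl⟩
  rw [← hΩ] at r1 r2
  have hcount : ∀ E : ℕ → Prop, ∑ ω ∈ Ω, (if ω ∈ S ∧ E ω then 1 / (x : ℝ) else 0) ≤ 1 / (k : ℝ) ^ (U + 2) →
      ((S.filter E).card : ℝ) ≤ x / (k : ℝ) ^ (U + 2) := by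
    intro E h
    have h4 : Ω.filter (fun ω => ω ∈ S ∧ E ω) = S.filter E := by
      ext m
      rw [mem_filter, mem_filter, hΩ, mem_filter]
      constructor
      · rintro ⟨_, h5, h6⟩
        exact ⟨h5, h6⟩
      · rintro ⟨h5, h6⟩
        exact ⟨⟨hSx h5, (hS m h5).1⟩, h5, h6⟩
    rw [← sum_filter, h4, sum_const, nsmul_eq_mul, mul_one_div] at h
    rcases Nat.eq_zero_or_pos x with h0 | h0
    · have h5 : S.filter E = ∅ := by
        rw [← subset_empty]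
        refine (filter_subset _ _).trans (hSx.trans ?_)
        rw [h0]
        rfl
      rw [h5, card_empty, Nat.cast_zero]
      positivity
    · have hx0 : (0 : ℝ) < x := by exact_mod_cast h0
      rw [div_le_iff₀ hx0] at h
      refine h.trans (le_of_eq ?_)
      ring
  have hthr : (((B + 1) * N : ℕ) : ℝ) / (k : ℝ) ^ (U + 2) ≤ N / L ^ U :=
    thr hL1 hk1 (by linarith) 2 (by norm_num)
  obtain ⟨E1, hE1⟩ : ∃ E1 : ℕ → Prop, ∀ m, E1 m ↔ ∃ z ≤ B * N, N / L ^ U < |W lam Q z (s m).toNat| :=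
    ⟨_, fun _ => Iff.rfl⟩
  obtain ⟨E2, hE2⟩ : ∃ E2 : ℕ → Prop, ∀ m, E2 m ↔ N / L ^ U < |WW lam y Q (s m).toNat| :=
    ⟨_, fun _ => Iff.rfl⟩
  have c1 := hcount E1 (r1 (fun m => m ∈ S ∧ E1 m) _ (by
    rintro m _ ⟨_, hm⟩
    obtain ⟨z, hz, hlt⟩ := (hE1 m).1 hm
    exact ⟨z, hz, lt_of_le_of_lt hthr hlt⟩))
  have c2 := hcount E2 (r2 y hy (fun m => m ∈ S ∧ E2 m) _ (by
    rintro m _ ⟨_, hlt⟩
    exact lt_of_le_of_lt hthr ((hE2 m).1 hlt)))
  have h6 : S ⊆ S.filter E1 ∪ S.filter E2 := by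
    intro m hm
    rw [mem_union, mem_filter, mem_filter, hE1, hE2]
    rcases (hS m hm).2 with h | h
    · exact Or.inl ⟨hm, h⟩
    · exact Or.inr ⟨hm, h⟩
  have h7 : (S.card : ℝ) ≤ ((S.filter E1).card : ℝ) + ((S.filter E2).card : ℝ) := by
    exact_mod_cast (card_le_card h6).trans (card_union_le _ _)
  have hx0 : (0 : ℝ) ≤ x := Nat.cast_nonneg _
  have h8 : 2 * ((x : ℝ) / (k : ℝ) ^ (U + 2)) ≤ x / L ^ U := by
    have h9 : (x : ℝ) / (k : ℝ) ^ (U + 2) ≤ (x / L ^ U) / 2 := by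
      rw [div_div]
      apply div_le_div_of_nonneg_left hx0 (by positivity)
      have h10 : L ^ U ≤ (k : ℝ) ^ U := pow_le_pow_left₀ hL0.le hk1 U
      have h11 : (2 : ℝ) ≤ (k : ℝ) ^ 2 := by nlinarith
      rw [pow_add]
      gcongr
    linarith
  linarith

open Classical in
/-- all the residues nearby and several systems of weights -/
theorem near_heavy (p B C T V U : ℕ) : ∃ K N₀ : ℕ, ∀ N : ℕ, N₀ ≤ N →
    ∀ (x : ℕ) (s : ℕ → ℤ), (∀ m ∈ Icc 1 x, |s m| ≤ B * N) →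
    (energy p x s : ℝ) * N ≤ Real.log N ^ C * (x : ℝ) ^ (2 * p) → ∀ Q : ℕ,
    (Q : ℝ) ≤ N * Real.exp (-(K * Real.log (Real.log N) ^ 2)) →
    ∀ R : ℕ, (R : ℝ) ≤ Real.log N ^ T →
    ∀ lam : Fin R → ℕ → ℝ, (∀ l q, |lam l q| ≤ ((q.divisors.card : ℝ) * Real.log N) ^ T) →
    ∀ y : Fin R → ℕ → ℕ, (∀ l q, y l q ≤ B * N) →
    ∀ S : Finset ℕ, S ⊆ Icc 1 x →
    (∀ m ∈ S, ∃ a : ℕ, 0 < a ∧ |((a - s m : ℤ) : ℝ)| ≤ Real.log N ^ V ∧ ∃ l,
      ((∃ z ≤ B * N, N / Real.log N ^ U < |W (lam l) Q z a|) ∨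
      N / Real.log N ^ U < |WW (lam l) (y l) Q a|)) →
    (S.card : ℝ) ≤ x / Real.log N ^ U := by
  obtain ⟨U', hU'⟩ : ∃ U', U' = U + V + T + 1 := ⟨_, rfl⟩
  obtain ⟨K, N₁, h1⟩ := base_heavy p (B + 1) C T U'
  obtain ⟨N₂, h2⟩ := ev_log 3
  obtain ⟨Y, hY⟩ := ev_pow V
  refine ⟨K, N₁ + N₂ + Y + 1, fun N hN x s hs hE Q hQ R hR lam hlam y hy S hSx hS => ?_⟩
  have hL := h2 N (by omega)
  have hVN := hY N (by omega)
  have hL0 : 0 < Real.log N := by linarith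
  have hL1 : 1 ≤ Real.log N := by linarith
  obtain ⟨r, hr⟩ : ∃ r : ℕ, r = ⌊Real.log N ^ V⌋₊ := ⟨_, rfl⟩
  have hr1 : (r : ℝ) ≤ Real.log N ^ V := by rw [hr]; exact Nat.floor_le (by positivity)
  have hrN : (r : ℤ) ≤ N := by
    have : (r : ℝ) ≤ N := hr1.trans hVN
    exact_mod_cast this
  -- the pieces
  obtain ⟨Bd, hBd⟩ : ∃ Bd : ℤ → Fin R → Finset ℕ, ∀ t l, Bd t l = S.filter (fun m => 0 < s m + t ∧
      ((∃ z ≤ (B + 1) * N, N / Real.log N ^ U' < |W (lam l) Q z (s m + t).toNat|) ∨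
      N / Real.log N ^ U' < |WW (lam l) (y l) Q (s m + t).toNat|)) := ⟨_, fun _ _ => rfl⟩
  have hb : ∀ t ∈ Icc (-(r : ℤ)) r, ∀ l, ((Bd t l).card : ℝ) ≤ x / Real.log N ^ U' := by
    intro t ht l
    rw [mem_Icc] at ht
    refine h1 N (by omega) x (fun m => s m + t) ?_ ?_ Q hQ (lam l) (hlam l) (y l) ?_ (Bd t l) ?_ ?_
    · intro m hm
      have h3 := hs m hm
      have h4 : |t| ≤ N := abs_le.2 ⟨by omega, by omega⟩
      refine (abs_add_le _ _).trans ?_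
      push_cast
      linarith
    · rw [energy_shift]
      exact hE
    · intro q
      exact (hy l q).trans (Nat.mul_le_mul_right _ (by omega))
    · rw [hBd]
      exact (filter_subset _ _).trans hSx
    · intro m hm
      rw [hBd, mem_filter] at hm
      exact hm.2
  have hcover : S ⊆ (Icc (-(r : ℤ)) r).biUnion fun t => (univ : Finset (Fin R)).biUnion fun l => Bd t l := by
    intro m hm
    obtain ⟨a, ha, hat, l, hl⟩ := hS m hm
    have h3 : |((a : ℤ) - s m)| ≤ r := by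
      have h4 : ((|((a : ℤ) - s m)| : ℤ) : ℝ) ≤ Real.log N ^ V := by
        rw [Int.cast_abs]
        exact hat
      have h6 : ((((a : ℤ) - s m).natAbs : ℕ) : ℝ) ≤ Real.log N ^ V := by
        rw [Nat.cast_natAbs]
        exact h4
      have h7 := Nat.le_floor h6
      rw [← hr] at h7
      rw [Int.abs_eq_natAbs]
      exact Int.ofNat_le.2 h7
    have h8 : s m + ((a : ℤ) - s m) = a := by ring
    rw [mem_biUnion]
    refine ⟨(a : ℤ) - s m, ?_, ?_⟩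
    · rw [mem_Icc]
      exact abs_le.1 h3
    · rw [mem_biUnion]
      refine ⟨l, mem_univ _, ?_⟩
      rw [hBd, mem_filter, h8, Int.toNat_natCast]
      have h9 : (N : ℝ) / Real.log N ^ U' ≤ N / Real.log N ^ U := by
        apply div_le_div_of_nonneg_left (Nat.cast_nonneg _) (by positivity)
        exact pow_le_pow_right₀ hL1 (by omega)
      refine ⟨hm, by exact_mod_cast ha, ?_⟩
      rcases hl with ⟨z, hz, hlt⟩ | hlt
      · exact Or.inl ⟨z, hz.trans (Nat.mul_le_mul_right _ (by omega)), lt_of_le_of_lt h9 hlt⟩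
      · exact Or.inr (lt_of_le_of_lt h9 hlt)
  have hcard : (S.card : ℝ) ≤ ∑ t ∈ Icc (-(r : ℤ)) r, ∑ l, ((Bd t l).card : ℝ) := by
    have h3 : S.card ≤ ∑ t ∈ Icc (-(r : ℤ)) r, ∑ l, (Bd t l).card :=
      (card_le_card hcover).trans (card_biUnion_le.trans (sum_le_sum fun t _ => card_biUnion_le))
    exact_mod_cast h3
  calc (S.card : ℝ) ≤ ∑ t ∈ Icc (-(r : ℤ)) r, ∑ l, ((Bd t l).card : ℝ) := hcard
    _ ≤ ∑ _t ∈ Icc (-(r : ℤ)) r, ∑ _l : Fin R, (x : ℝ) / Real.log N ^ U' :=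
        sum_le_sum fun t ht => sum_le_sum fun l _ => hb t ht l
    _ = (2 * (r : ℝ) + 1) * (R * (x / Real.log N ^ U')) := by
        rw [sum_const, sum_const, card_univ, Fintype.card_fin, nsmul_eq_mul, nsmul_eq_mul, Int.card_Icc]
        congr 1
        have : ((r : ℤ) + 1 - -(r : ℤ)).toNat = 2 * r + 1 := by omega
        rw [this]
        push_cast
        ring
    _ ≤ (3 * Real.log N ^ V) * (Real.log N ^ T * (x / Real.log N ^ U')) := by
        have h3 : (1 : ℝ) ≤ Real.log N ^ V := one_le_pow₀ hL1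
        have h4 : 2 * (r : ℝ) + 1 ≤ 3 * Real.log N ^ V := by linarith
        gcongr
    _ ≤ (Real.log N * Real.log N ^ V) * (Real.log N ^ T * (x / Real.log N ^ U')) := by gcongr
    _ = x / Real.log N ^ U := by
        rw [hU', pow_add, pow_add, pow_add, pow_one]
        field_simp

open Classical in
/-- absolute values over the moduli -/
theorem base_absolute (p B C T U : ℕ) : ∃ K N₀ : ℕ, ∀ N : ℕ, N₀ ≤ N →
    ∀ (x : ℕ) (s : ℕ → ℤ), (∀ m ∈ Icc 1 x, |s m| ≤ B * N) →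
    (energy p x s : ℝ) * N ≤ Real.log N ^ C * (x : ℝ) ^ (2 * p) → ∀ Q : ℕ,
    (Q : ℝ) ≤ N * Real.exp (-(K * Real.log (Real.log N) ^ 2)) →
    ∀ w : ℕ → ℝ, (∀ m, |w m| ≤ Real.log N ^ T) → ∀ y : ℕ → ℕ, (∀ q, y q ≤ B * N) →
    ∑ q ∈ Icc 1 Q, (q.divisors.card : ℝ) ^ T *
      |∑ m ∈ (Icc 1 x).filter (fun m => 0 < s m ∧ (s m).toNat.Coprime q), w m *
        (Fu (fun n => ArithmeticFunction.vonMangoldt n) (y q) q (s m).toNat - (y q : ℝ) / Nat.totient q)| ≤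
      x * (N / Real.log N ^ U) := by
  obtain ⟨T₁, U₁, m₁, k₁, hh⟩ := Pool.Agent.TH872.GQ.absolute T (U + 1)
  obtain ⟨K, N₁, h1⟩ := hyp_fam p B C T₁ U₁
  obtain ⟨N₂, h2⟩ := sizes B m₁
  obtain ⟨N₃, h3⟩ := ev_log (k₁ + B + 2)
  refine ⟨K + 1, N₁ + N₂ + N₃, fun N hN x s hs hE Q hQ w hw y hy => ?_⟩
  have hQ' : (Q : ℝ) ≤ N * Real.exp (-(K * Real.log (Real.log N) ^ 2)) := by
    refine hQ.trans ?_
    apply mul_le_mul_of_nonneg_left _ (Nat.cast_nonneg _)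
    apply Real.exp_le_exp.2
    push_cast
    nlinarith [sq_nonneg (Real.log (Real.log N))]
  obtain ⟨s1, s2, s3⟩ := h2 N (by omega) (K + 1) (by omega) Q (by exact_mod_cast hQ)
  have hyp := h1 N (by omega) x s hs hE Q hQ'
  have hL := h3 N (by omega)
  obtain ⟨L, hLd⟩ : ∃ L : ℝ, L = Real.log N := ⟨_, rfl⟩
  rw [← hLd] at hL s2 s3 hyp hw ⊢
  have hk₁0 : (0 : ℝ) ≤ k₁ := Nat.cast_nonneg _
  have hB0 : (0 : ℝ) ≤ B := Nat.cast_nonneg _
  have hL1 : 1 ≤ L := by linarith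
  have hL0 : 0 < L := by linarith
  obtain ⟨k, hk⟩ : ∃ k : ℕ, k = ⌈L⌉₊ := ⟨_, rfl⟩
  rw [← hk] at s2 s3 hyp
  have hk1 : L ≤ k := by rw [hk]; exact Nat.le_ceil _
  have hkk : k₁ ≤ k := by
    have : (k₁ : ℝ) ≤ k := by linarith
    exact_mod_cast this
  have hk0 : (0 : ℝ) < k := by linarith
  rcases Nat.eq_zero_or_pos x with h0 | h0
  · subst h0
    simp
  have hx0 : (0 : ℝ) < x := by exact_mod_cast h0
  have hp1 : ∑ _ω ∈ (Icc 1 x).filter (fun m => 0 < s m), 1 / (x : ℝ) ≤ 1 := by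
    rw [sum_const, nsmul_eq_mul, mul_one_div, div_le_one hx0]
    have : ((Icc 1 x).filter (fun m => 0 < s m)).card ≤ x := by
      refine (card_filter_le _ _).trans ?_
      rw [Nat.card_Icc, Nat.add_sub_cancel]
    exact_mod_cast this
  have r := hh k hkk ((B + 1) * N) (B * N) Q (Nat.mul_le_mul_right _ (by omega)) s1 s2 s3 ℕ _ _
    (fun _ _ => by positivity) hp1 _ hyp w (fun m => (hw m).trans (pow_le_pow_left₀ hL0.le hk1 T)) y hy
  have hthr : (((B + 1) * N : ℕ) : ℝ) / (k : ℝ) ^ (U + 1) ≤ N / L ^ U :=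
    thr hL1 hk1 (by linarith) 1 le_rfl
  have e1 : ∀ q : ℕ, (q.divisors.card : ℝ) ^ T * |∑ ω ∈ ((Icc 1 x).filter (fun m => 0 < s m)).filter
      (fun ω => ((s ω).toNat).Coprime q), 1 / (x : ℝ) * (w ω *
        (Fu (fun n => ArithmeticFunction.vonMangoldt n) (y q) q (s ω).toNat - (y q : ℝ) / Nat.totient q))| =
      ((q.divisors.card : ℝ) ^ T * |∑ m ∈ (Icc 1 x).filter (fun m => 0 < s m ∧ (s m).toNat.Coprime q), w m *
        (Fu (fun n => ArithmeticFunction.vonMangoldt n) (y q) q (s m).toNat - (y q : ℝ) / Nat.totient q)|) / x := by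
    intro q
    rw [← mul_sum, abs_mul, abs_of_pos (by positivity : (0 : ℝ) < 1 / x), filter_filter]
    ring
  have r' := r.trans hthr
  rw [sum_congr rfl (fun q _ => e1 q), ← sum_div, div_le_iff₀ hx0] at r'
  linarith

end Pool.Agent.K9h59.FM
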